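import Pool.Agent.H178R2.PG.Gap

set_option autoImplicit false

namespace Pool.Agent.Results.MP_f82811_pr.BridgeCouplings

/-- **The relaxation time of the ferromagnetic Ising heat bath dynamics is nondecreasing in the
couplings of bridges** (in particular: in every coupling, for every forest). Increase the
couplings `J` to `J'` only on bridges of the graph of `J'` (pairs `i, j` such that some vertex
set `B` contains `i` and not `j`, and `{i, j}` is the only pair with a non-zero coupling `J'`
between `B` and its complement). Then the spectral gap does not increase. -/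
theorem result :
    ∀ (V : Type) [Fintype V] [DecidableEq V]
      (π : (V → V → ℝ) → (V → Bool) → ℝ),
      (∀ (K : V → V → ℝ) (σ : V → Bool),
        π K σ =
          Real.exp ((∑ i, ∑ j, K i j * (if σ i then (1:ℝ) else -1) * (if σ j then (1:ℝ) else -1)) / 2) /
          ∑ τ : V → Bool,
            Real.exp ((∑ i, ∑ j, K i j * (if τ i then (1:ℝ) else -1) * (if τ j then (1:ℝ) else -1)) / 2)) →
      ∀ (J J' : V → V → ℝ),
        (∀ i j, J i j = J j i) → (∀ i j, J' i j = J' j i) →
        (∀ i j, 0 ≤ J i j) → (∀ i j, J i j ≤ J' i j) →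
        (∀ i j, J i j ≠ J' i j → ∃ B : Set V, i ∈ B ∧ j ∉ B ∧
          ∀ u ∈ B, ∀ v ∉ B, (u, v) ≠ (i, j) → J' u v = 0) →
        sInf {r : ℝ | ∃ f : (V → Bool) → ℝ,
            0 < ∑ σ, π J' σ * (f σ - ∑ τ, π J' τ * f τ) ^ 2 ∧
            r = ((1 / (2 * (Fintype.card V : ℝ))) *
                  ∑ σ, ∑ v, π J' σ * π J' (Function.update σ v (!σ v)) /
                    (π J' σ + π J' (Function.update σ v (!σ v))) *
                    (f σ - f (Function.update σ v (!σ v))) ^ 2) /
                (∑ σ, π J' σ * (f σ - ∑ τ, π J' τ * f τ) ^ 2)}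
        ≤
        sInf {r : ℝ | ∃ f : (V → Bool) → ℝ,
            0 < ∑ σ, π J σ * (f σ - ∑ τ, π J τ * f τ) ^ 2 ∧
            r = ((1 / (2 * (Fintype.card V : ℝ))) *
                  ∑ σ, ∑ v, π J σ * π J (Function.update σ v (!σ v)) /
                    (π J σ + π J (Function.update σ v (!σ v))) *
                    (f σ - f (Function.update σ v (!σ v))) ^ 2) /
                (∑ σ, π J σ * (f σ - ∑ τ, π J τ * f τ) ^ 2)} := by
  intro V _ _ π hπ J J' hJ hJ' h0 hle hb
  have e : ∀ K, π K = H178R2.PG.nm (H178R2.PG.W K) := by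
    intro K
    funext σ
    rw [hπ]
    rfl
  have key := H178R2.PG.gp_bridges J J' hJ hJ' h0 hle hb
  rw [← e, ← e] at key
  exact key

end Pool.Agent.Results.MP_f82811_pr.BridgeCouplings
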