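import Pool.Agent.H178R2.PG.Gap

set_option autoImplicit false

namespace Pool.Agent.Results.MP_f82811_pr.Unimodal

/-- **The relaxation time of the ferromagnetic Ising heat bath dynamics is a quasi-convex
(unimodal) function of each coupling, on every finite graph.** Here `Jt t` are the couplings
obtained from `J` by giving the pair `{a, b}` the coupling `t`; for `0 ≤ x ≤ y ≤ z` the
spectral gap at `y` is at least the smaller of the gaps at `x` and `z`. -/
theorem result :
    ∀ (V : Type) [Fintype V] [DecidableEq V]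
      (π : (V → V → ℝ) → (V → Bool) → ℝ),
      (∀ (K : V → V → ℝ) (σ : V → Bool),
        π K σ =
          Real.exp ((∑ i, ∑ j, K i j * (if σ i then (1:ℝ) else -1) * (if σ j then (1:ℝ) else -1)) / 2) /
          ∑ τ : V → Bool,
            Real.exp ((∑ i, ∑ j, K i j * (if τ i then (1:ℝ) else -1) * (if τ j then (1:ℝ) else -1)) / 2)) →
      ∀ (gap : (V → V → ℝ) → ℝ),
      (∀ K : V → V → ℝ, gap K =
        sInf {r : ℝ | ∃ f : (V → Bool) → ℝ,
            0 < ∑ σ, π K σ * (f σ - ∑ τ, π K τ * f τ) ^ 2 ∧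
            r = ((1 / (2 * (Fintype.card V : ℝ))) *
                  ∑ σ, ∑ v, π K σ * π K (Function.update σ v (!σ v)) /
                    (π K σ + π K (Function.update σ v (!σ v))) *
                    (f σ - f (Function.update σ v (!σ v))) ^ 2) /
                (∑ σ, π K σ * (f σ - ∑ τ, π K τ * f τ) ^ 2)}) →
      ∀ (J : V → V → ℝ), (∀ i j, J i j = J j i) → (∀ i j, 0 ≤ J i j) →
      ∀ (a b : V), a ≠ b →
      ∀ (Jt : ℝ → V → V → ℝ),
        (∀ t i j, Jt t i j = if (i = a ∧ j = b) ∨ (i = b ∧ j = a) then t else J i j) →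
      ∀ x y z : ℝ, 0 ≤ x → x ≤ y → y ≤ z →
        min (gap (Jt x)) (gap (Jt z)) ≤ gap (Jt y) := by
  intro V _ _ π hπ gap hgap J _ h0 a b hab Jt hJt x y z hx hxy hyz
  have e : ∀ K, π K = H178R2.PG.nm (H178R2.PG.W K) := by
    intro K
    funext σ
    rw [hπ]
    rfl
  have g : ∀ K, gap K = H178R2.PG.gp (H178R2.PG.nm (H178R2.PG.W K)) := by
    intro K
    rw [hgap, e]
    rfl
  have u : ∀ t, Jt t = H178R2.PG.upd J a b t := by
    intro t
    funext i j
    rw [hJt]
    rfl
  have key := H178R2.PG.gp_unimodal J h0 hab hx hxy hyz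
  rw [← g, ← g, ← g, ← u, ← u, ← u] at key
  exact key

end Pool.Agent.Results.MP_f82811_pr.Unimodal
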